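import Mathlib

set_option autoImplicit false

open Metric Filter Topology MeasureTheory ComplexConjugate
open scoped ENNReal

namespace Pool.Agent.Results.MP_6004b5_an.HarmonicBeatsMobius

/-- The class `H`: sense-preserving univalent harmonic self-mappings of the unit disc.
`f = h + conj g` with `h, g` holomorphic on the disc, Jacobian `|h'|² - |g'|² > 0`, `f` injective
on the disc and `f(D) ⊆ D`. -/
def InH (f : ℂ → ℂ) : Prop :=
  (∃ h g : ℂ → ℂ, DifferentiableOn ℂ h (ball 0 1) ∧ DifferentiableOn ℂ g (ball 0 1) ∧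
    (∀ z ∈ ball (0 : ℂ) 1, f z = h z + conj (g z)) ∧
    (∀ z ∈ ball (0 : ℂ) 1, 0 < ‖deriv h z‖ ^ 2 - ‖deriv g z‖ ^ 2)) ∧
  Set.InjOn f (ball 0 1) ∧ Set.MapsTo f (ball 0 1) (ball 0 1)

/-- The conformal automorphism `z ↦ e^{iθ} (z - a) / (1 - conj a * z)` of the unit disc
(for `|a| < 1`). -/
noncomputable def automorphism (θ : ℝ) (a : ℂ) (z : ℂ) : ℂ :=
  Complex.exp (θ * Complex.I) * ((z - a) / (1 - conj a * z))

/-! ### determinants -/

noncomputable def L (A B : ℂ) : ℂ →L[ℝ] ℂ :=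
  A • (ContinuousLinearMap.id ℝ ℂ) + B • (Complex.conjCLE : ℂ →L[ℝ] ℂ)

lemma L_apply (A B v : ℂ) : L A B v = A * v + B * conj v := by
  simp [L]

lemma det_L (A B : ℂ) : (L A B).det = ‖A‖ ^ 2 - ‖B‖ ^ 2 := by
  have : (L A B).det = LinearMap.det ((L A B : ℂ →L[ℝ] ℂ) : ℂ →ₗ[ℝ] ℂ) := rfl
  rw [this, ← LinearMap.det_toMatrix Complex.basisOneI, Matrix.det_fin_two]
  simp only [LinearMap.toMatrix_apply, Complex.coe_basisOneI, Complex.coe_basisOneI_repr,
    ContinuousLinearMap.coe_coe, L_apply, Matrix.cons_val_zero, Matrix.cons_val_one]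
  rw [← Complex.normSq_eq_norm_sq, ← Complex.normSq_eq_norm_sq, Complex.normSq_apply,
    Complex.normSq_apply]
  simp
  ring

/-! ### the harmonic map -/

/-- `f(z) = (z + z³/10 - conj z / 10) / (51/50)` -/
noncomputable def F (z : ℂ) : ℂ := (50 / 51) * z + (5 / 51) * z ^ 3 - (5 / 51) * conj z

noncomputable def hF (z : ℂ) : ℂ := (50 / 51) * z + (5 / 51) * z ^ 3
noncomputable def gF (z : ℂ) : ℂ := -(5 / 51) * z

lemma F_eq (z : ℂ) : F z = hF z + conj (gF z) := by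
  unfold F hF gF
  simp only [map_mul, map_neg, map_div₀, Complex.conj_ofNat]
  ring

lemma hasDerivAt_hF (z : ℂ) : HasDerivAt hF (50 / 51 + (15 / 51) * z ^ 2) z := by
  have a := (hasDerivAt_id z).const_mul (50 / 51 : ℂ)
  have b := ((hasDerivAt_id z).pow 3).const_mul (5 / 51 : ℂ)
  have c := a.add b
  have e : (50 / 51 + (15 / 51) * z ^ 2 : ℂ) =
      50 / 51 * 1 + 5 / 51 * (((3 : ℕ) : ℂ) * id z ^ (3 - 1) * 1) := by
    simp only [id]
    push_cast
    ring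
  rw [e]
  exact c

lemma hasDerivAt_gF (z : ℂ) : HasDerivAt gF (-(5 / 51)) z := by
  have a := (hasDerivAt_id z).const_mul (-(5 / 51) : ℂ)
  rw [mul_one] at a
  exact a

lemma norm_hF' {z : ℂ} (hz : ‖z‖ < 1) : 35 / 51 < ‖(50 / 51 + (15 / 51) * z ^ 2 : ℂ)‖ := by
  have h1 : ‖((15 / 51) * z ^ 2 : ℂ)‖ < 15 / 51 := by
    rw [norm_mul, norm_pow]
    have : ‖(15 / 51 : ℂ)‖ = 15 / 51 := by
      rw [norm_div]; simp
    rw [this]
    nlinarith [norm_nonneg z]
  have h2 : ‖(50 / 51 : ℂ)‖ = 50 / 51 := by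
    rw [norm_div]; simp
  have h3 := norm_sub_norm_le (50 / 51 : ℂ) (-((15 / 51) * z ^ 2))
  rw [norm_neg, sub_neg_eq_add, h2] at h3
  linarith

lemma F_injOn : Set.InjOn F (ball 0 1) := by
  intro z hz w hw h
  rw [mem_ball_zero_iff] at hz hw
  by_contra hne
  have hne' : z - w ≠ 0 := sub_ne_zero.mpr hne
  unfold F at h
  have e : (z - w) * (50 + 5 * (z ^ 2 + z * w + w ^ 2)) = 5 * conj (z - w) := by
    rw [map_sub]
    linear_combination 51 * h
  have e2 := congrArg norm e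
  rw [norm_mul, norm_mul, Complex.norm_conj, Complex.norm_ofNat] at e2
  have e3 : ‖(50 + 5 * (z ^ 2 + z * w + w ^ 2) : ℂ)‖ = 5 := by
    have : 0 < ‖z - w‖ := norm_pos_iff.mpr hne'
    have : ‖z - w‖ * (‖(50 + 5 * (z ^ 2 + z * w + w ^ 2) : ℂ)‖ - 5) = 0 := by linarith
    rcases mul_eq_zero.mp this with h | h
    · linarith
    · linarith
  have h1 : ‖(5 * (z ^ 2 + z * w + w ^ 2) : ℂ)‖ ≤ 15 := by
    rw [norm_mul, Complex.norm_ofNat]
    have : ‖z ^ 2 + z * w + w ^ 2‖ ≤ ‖z‖ ^ 2 + ‖z‖ * ‖w‖ + ‖w‖ ^ 2 := by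
      refine (norm_add_le _ _).trans ?_
      rw [norm_pow]
      gcongr
      refine (norm_add_le _ _).trans ?_
      rw [norm_pow, norm_mul]
    nlinarith [norm_nonneg z, norm_nonneg w]
  have h3 := norm_sub_norm_le (50 : ℂ) (-(5 * (z ^ 2 + z * w + w ^ 2)))
  rw [norm_neg, sub_neg_eq_add, e3, Complex.norm_ofNat] at h3
  linarith

lemma F_mapsTo : Set.MapsTo F (ball 0 1) (ball 0 1) := by
  intro z hz
  rw [mem_ball_zero_iff] at hz ⊢
  set x := z.re with hx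
  set y := z.im with hy
  set u : ℝ := x ^ 2 + y ^ 2 with hu
  have hu1 : u < 1 := by
    have : u = ‖z‖ ^ 2 := by
      rw [← Complex.normSq_eq_norm_sq, Complex.normSq_apply]; ring
    rw [this]
    nlinarith [norm_nonneg z]
  have hu0 : 0 ≤ u := by positivity
  have hre : (F z).re = (50 * x + 5 * (x ^ 3 - 3 * x * y ^ 2) - 5 * x) / 51 := by
    unfold F
    have h3 : (z ^ 3).re = x ^ 3 - 3 * x * y ^ 2 := by
      simp only [pow_succ, pow_zero, one_mul, Complex.mul_re, Complex.mul_im]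
      ring
    have e1 : ((50 / 51 : ℂ) * z).re = 50 / 51 * x := by
      have : (50 / 51 : ℂ) = ((50 / 51 : ℝ) : ℂ) := by push_cast; ring
      rw [this, Complex.re_ofReal_mul]
    have e2 : ((5 / 51 : ℂ) * z ^ 3).re = 5 / 51 * (x ^ 3 - 3 * x * y ^ 2) := by
      have : (5 / 51 : ℂ) = ((5 / 51 : ℝ) : ℂ) := by push_cast; ring
      rw [this, Complex.re_ofReal_mul, h3]
    have e3 : ((5 / 51 : ℂ) * conj z).re = 5 / 51 * x := by
      have : (5 / 51 : ℂ) = ((5 / 51 : ℝ) : ℂ) := by push_cast; ring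
      rw [this, Complex.re_ofReal_mul, Complex.conj_re]
    rw [Complex.sub_re, Complex.add_re, e1, e2, e3]
    ring
  have him : (F z).im = (50 * y + 5 * (3 * x ^ 2 * y - y ^ 3) + 5 * y) / 51 := by
    unfold F
    have h3 : (z ^ 3).im = 3 * x ^ 2 * y - y ^ 3 := by
      simp only [pow_succ, pow_zero, one_mul, Complex.mul_re, Complex.mul_im]
      ring
    have e1 : ((50 / 51 : ℂ) * z).im = 50 / 51 * y := by
      have : (50 / 51 : ℂ) = ((50 / 51 : ℝ) : ℂ) := by push_cast; ring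
      rw [this, Complex.im_ofReal_mul]
    have e2 : ((5 / 51 : ℂ) * z ^ 3).im = 5 / 51 * (3 * x ^ 2 * y - y ^ 3) := by
      have : (5 / 51 : ℂ) = ((5 / 51 : ℝ) : ℂ) := by push_cast; ring
      rw [this, Complex.im_ofReal_mul, h3]
    have e3 : ((5 / 51 : ℂ) * conj z).im = -(5 / 51 * y) := by
      have : (5 / 51 : ℂ) = ((5 / 51 : ℝ) : ℂ) := by push_cast; ring
      rw [this, Complex.im_ofReal_mul, Complex.conj_im]
      ring
    rw [Complex.sub_im, Complex.add_im, e1, e2, e3]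
    ring
  have hn : ‖F z‖ ^ 2 < 1 := by
    rw [← Complex.normSq_eq_norm_sq, Complex.normSq_apply, hre, him]
    -- W = |51/50 ... |^2 scaled
    set W : ℝ := (50 * x + 5 * (x ^ 3 - 3 * x * y ^ 2) - 5 * x) ^ 2 +
      (50 * y + 5 * (3 * x ^ 2 * y - y ^ 3) + 5 * y) ^ 2 with hW
    have key : W ≤ 2500 * (u * (1 + (1 - u) / 10) ^ 2) + 100 * u := by
      rcases eq_or_lt_of_le hu0 with h0 | h0
      · have hx0 : x = 0 := by nlinarith [sq_nonneg x, sq_nonneg y]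
        have hy0 : y = 0 := by nlinarith [sq_nonneg x, sq_nonneg y]
        rw [hW, ← h0, hx0, hy0]
        norm_num
      · have e : u * (2500 * (u * (1 + (1 - u) / 10) ^ 2) + 100 * u - W) =
            2500 * ((u + (1 - u) * u / 10) ^ 2 - (u + (u - 1) * (x ^ 2 - y ^ 2) / 10) ^ 2) +
            25 * (4 * u ^ 2 - (1 + u) ^ 2 * (2 * x * y) ^ 2) := by
          rw [hW, hu]; ring
        have a1 : (x ^ 2 - y ^ 2) ≤ u := by rw [hu]; nlinarith [sq_nonneg y]
        have a2 : -u ≤ (x ^ 2 - y ^ 2) := by rw [hu]; nlinarith [sq_nonneg x]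
        have a3 : 0 ≤ (u + (1 - u) * u / 10) ^ 2 - (u + (u - 1) * (x ^ 2 - y ^ 2) / 10) ^ 2 := by
          have b1 : 0 ≤ (u + (1 - u) * u / 10) - (u + (u - 1) * (x ^ 2 - y ^ 2) / 10) := by nlinarith
          have b2 : 0 ≤ (u + (1 - u) * u / 10) + (u + (u - 1) * (x ^ 2 - y ^ 2) / 10) := by nlinarith
          nlinarith [mul_nonneg b1 b2]
        have a4 : (2 * x * y) ^ 2 ≤ u ^ 2 := by
          rw [hu]; nlinarith [sq_nonneg (x ^ 2 - y ^ 2)]
        have a5 : 0 ≤ 4 * u ^ 2 - (1 + u) ^ 2 * (2 * x * y) ^ 2 := by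
          have : (1 + u) ^ 2 ≤ 4 := by nlinarith
          nlinarith [sq_nonneg (2 * x * y), sq_nonneg (1 + u)]
        have a6 : 0 ≤ u * (2500 * (u * (1 + (1 - u) / 10) ^ 2) + 100 * u - W) := by
          rw [e]; nlinarith
        have := (mul_nonneg_iff_of_pos_left h0).mp a6
        linarith
    have k2 : u * (1 + (1 - u) / 10) ^ 2 ≤ 1 := by
      have : 1 - u * (1 + (1 - u) / 10) ^ 2 = (1 - u) * (1 - 21 / 100 * u + 1 / 100 * u ^ 2) := by ring
      nlinarith [sq_nonneg u, mul_nonneg (by linarith : (0 : ℝ) ≤ 1 - u)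
        (by nlinarith [sq_nonneg u] : (0 : ℝ) ≤ 1 - 21 / 100 * u + 1 / 100 * u ^ 2)]
    have : (50 * x + 5 * (x ^ 3 - 3 * x * y ^ 2) - 5 * x) / 51 *
        ((50 * x + 5 * (x ^ 3 - 3 * x * y ^ 2) - 5 * x) / 51) +
        (50 * y + 5 * (3 * x ^ 2 * y - y ^ 3) + 5 * y) / 51 *
        ((50 * y + 5 * (3 * x ^ 2 * y - y ^ 3) + 5 * y) / 51) = W / 2601 := by
      rw [hW]; ring
    rw [this, div_lt_one (by norm_num)]
    linarith
  nlinarith [norm_nonneg (F z)]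

lemma F_inH : InH F := by
  refine ⟨⟨hF, gF, fun z _ => (hasDerivAt_hF z).differentiableAt.differentiableWithinAt,
    fun z _ => (hasDerivAt_gF z).differentiableAt.differentiableWithinAt, fun z _ => F_eq z, ?_⟩,
    F_injOn, F_mapsTo⟩
  intro z hz
  rw [mem_ball_zero_iff] at hz
  rw [(hasDerivAt_hF z).deriv, (hasDerivAt_gF z).deriv]
  have h1 := norm_hF' hz
  have h2 : ‖(-(5 / 51) : ℂ)‖ = 5 / 51 := by
    rw [norm_neg, norm_div]; simp
  rw [h2]
  nlinarith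

/-! ### measures -/

lemma hasFDerivAt_of_deriv {f : ℂ → ℂ} {d z : ℂ} (h : HasDerivAt f d z) :
    HasFDerivAt f (L d 0) z := by
  have h1 := h.hasFDerivAt.restrictScalars ℝ
  have e : L d 0 = (ContinuousLinearMap.toSpanSingleton ℂ d).restrictScalars ℝ := by
    ext v
    simp [L_apply, mul_comm]
  rw [e]
  exact h1

lemma hasFDerivAt_F (z : ℂ) :
    HasFDerivAt F (L (50 / 51 + (15 / 51) * z ^ 2) (-(5 / 51))) z := by
  have h1 := hasFDerivAt_of_deriv (hasDerivAt_hF z)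
  have h2 : HasFDerivAt (fun w : ℂ => (-(5 / 51) : ℂ) * conj w)
      (L 0 (-(5 / 51))) z := by
    have h3 : HasFDerivAt (fun w : ℂ => conj w) (Complex.conjCLE : ℂ →L[ℝ] ℂ) z :=
      (Complex.conjCLE : ℂ ≃L[ℝ] ℂ).hasFDerivAt
    have h4 := h3.const_mul (-(5 / 51) : ℂ)
    have e : L 0 (-(5 / 51)) = (-(5 / 51) : ℂ) • (Complex.conjCLE : ℂ →L[ℝ] ℂ) := by
      refine ContinuousLinearMap.ext fun v => ?_
      rw [L_apply, zero_mul, zero_add]
      rfl
    rw [e]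
    exact h4
  have h5 := h1.add h2
  have e1 : (fun w => hF w + (-(5 / 51) : ℂ) * conj w) = F := by
    funext w
    unfold F hF
    ring
  have e2 : L (50 / 51 + (15 / 51) * z ^ 2) 0 + L 0 (-(5 / 51)) =
      L (50 / 51 + (15 / 51) * z ^ 2) (-(5 / 51)) := by
    refine ContinuousLinearMap.ext fun v => ?_
    rw [ContinuousLinearMap.add_apply, L_apply, L_apply, L_apply]
    ring
  rw [← e2]
  have e3 : F = hF + fun w => (-(5 / 51) : ℂ) * conj w := by
    rw [← e1]; rfl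
  rw [e3]
  exact h5

lemma det_F_ge {z : ℂ} (h : 159 / 1000 ≤ (z ^ 2).re) :
    1045 / 1000 ≤ |(L (50 / 51 + (15 / 51) * z ^ 2) (-(5 / 51))).det| := by
  rw [det_L]
  have h2 : ‖(-(5 / 51) : ℂ)‖ = 5 / 51 := by
    rw [norm_neg, norm_div]; simp
  rw [h2]
  have h1 : (50 + 15 * (159 / 1000)) / 51 ≤ ‖(50 / 51 + (15 / 51) * z ^ 2 : ℂ)‖ := by
    refine le_trans ?_ (Complex.re_le_norm _)
    have e : (50 / 51 + (15 / 51) * z ^ 2 : ℂ).re = 50 / 51 + 15 / 51 * (z ^ 2).re := by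
      have e1 : (50 / 51 : ℂ) = ((50 / 51 : ℝ) : ℂ) := by push_cast; ring
      have e2 : (15 / 51 : ℂ) = ((15 / 51 : ℝ) : ℂ) := by push_cast; ring
      rw [e1, e2, Complex.add_re, Complex.re_ofReal_mul, Complex.ofReal_re]
    rw [e]
    linarith
  refine le_trans ?_ (le_abs_self _)
  nlinarith

/-- the test set -/
def E1 : Set ℂ := ball (2 / 5) (1 / 1000)
def E2 : Set ℂ := ball (-(2 / 5)) (1 / 1000)

lemma re_sq_E1 {z : ℂ} (hz : z ∈ E1) : 159 / 1000 ≤ (z ^ 2).re := by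
  unfold E1 at hz
  rw [mem_ball, dist_eq_norm] at hz
  have h1 := (Complex.abs_re_le_norm (z - 2 / 5)).trans_lt hz
  have h2 := (Complex.abs_im_le_norm (z - 2 / 5)).trans_lt hz
  have e1 : (z - 2 / 5).re = z.re - 2 / 5 := by
    have : (2 / 5 : ℂ) = ((2 / 5 : ℝ) : ℂ) := by push_cast; ring
    rw [this, Complex.sub_re, Complex.ofReal_re]
  have e2 : (z - 2 / 5).im = z.im := by
    have : (2 / 5 : ℂ) = ((2 / 5 : ℝ) : ℂ) := by push_cast; ring
    rw [this, Complex.sub_im, Complex.ofReal_im, sub_zero]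
  rw [e1, abs_lt] at h1
  rw [e2, abs_lt] at h2
  rw [pow_two, Complex.mul_re]
  nlinarith

lemma re_sq_E2 {z : ℂ} (hz : z ∈ E2) : 159 / 1000 ≤ (z ^ 2).re := by
  have : -z ∈ E1 := by
    unfold E1
    unfold E2 at hz
    rw [mem_ball, dist_eq_norm] at hz ⊢
    rw [← norm_neg]
    have e : -(-z - 2 / 5) = z - -(2 / 5) := by ring
    rw [e]
    exact hz
  have h := re_sq_E1 this
  rwa [neg_sq] at h

lemma norm_two_fifths : ‖(2 / 5 : ℂ)‖ = 2 / 5 := by
  rw [norm_div]; simp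

lemma E1_sub : E1 ⊆ ball 0 1 := by
  unfold E1
  apply ball_subset_ball'
  rw [dist_zero_right, norm_two_fifths]
  norm_num

lemma E2_sub : E2 ⊆ ball 0 1 := by
  unfold E2
  apply ball_subset_ball'
  rw [dist_zero_right, norm_neg, norm_two_fifths]
  norm_num

lemma disj : Disjoint E1 E2 := by
  unfold E1 E2
  apply ball_disjoint_ball
  rw [dist_eq_norm]
  have : (2 / 5 - -(2 / 5) : ℂ) = ((4 / 5 : ℝ) : ℂ) := by push_cast; ring
  rw [this, Complex.norm_real]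
  norm_num

noncomputable def V : ℝ≥0∞ := volume (ball (0 : ℂ) (1 / 1000))

lemma vol_E1 : volume E1 = V := by
  unfold E1 V
  rw [Measure.addHaar_ball_center]

lemma vol_E2 : volume E2 = V := by
  unfold E2 V
  rw [Measure.addHaar_ball_center]

lemma V_pos : V ≠ 0 := by
  unfold V
  exact (measure_ball_pos volume 0 (by norm_num)).ne'

lemma V_top : V ≠ ⊤ := by
  unfold V
  exact measure_ball_lt_top.ne

lemma lower : ENNReal.ofReal (2090 / 1000) * V ≤ volume (F '' (E1 ∪ E2)) := by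
  have hmeas : MeasurableSet (E1 ∪ E2) := measurableSet_ball.union measurableSet_ball
  rw [← lintegral_abs_det_fderiv_eq_addHaar_image volume hmeas
    (fun x _ => (hasFDerivAt_F x).hasFDerivWithinAt)
    (F_injOn.mono (Set.union_subset E1_sub E2_sub))]
  have h1 : ∫⁻ _ in E1 ∪ E2, ENNReal.ofReal (1045 / 1000) ∂(volume : Measure ℂ) ≤
      ∫⁻ x in E1 ∪ E2, ENNReal.ofReal |(L (50 / 51 + (15 / 51) * x ^ 2) (-(5 / 51))).det| := by
    apply setLIntegral_mono' hmeas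
    intro x hx
    apply ENNReal.ofReal_le_ofReal
    apply det_F_ge
    rcases hx with hx | hx
    · exact re_sq_E1 hx
    · exact re_sq_E2 hx
  refine le_trans ?_ h1
  rw [setLIntegral_const, measure_union disj measurableSet_ball, vol_E1, vol_E2,
    ← two_mul, ← mul_assoc]
  apply le_of_eq
  congr 1
  have : (2 : ℝ≥0∞) = ENNReal.ofReal 2 := by simp
  rw [this, ← ENNReal.ofReal_mul (by norm_num)]
  norm_num

/-! ### the upper bound for automorphisms -/

lemma den_ne {a z : ℂ} (ha : ‖a‖ < 1) (hz : ‖z‖ < 1) : 1 - conj a * z ≠ 0 := by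
  intro h
  have h1 : conj a * z = 1 := by linear_combination -h
  have h2 : ‖conj a * z‖ = 1 := by rw [h1]; simp
  rw [norm_mul, Complex.norm_conj] at h2
  nlinarith [norm_nonneg a, norm_nonneg z]

lemma hasDerivAt_aut (θ : ℝ) {a z : ℂ} (ha : ‖a‖ < 1) (hz : ‖z‖ < 1) :
    HasDerivAt (automorphism θ a)
      (Complex.exp (θ * Complex.I) * ((1 - conj a * a) / (1 - conj a * z) ^ 2)) z := by
  have h1 := den_ne ha hz
  have a1 : HasDerivAt (fun w : ℂ => w - a) 1 z := (hasDerivAt_id z).sub_const a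
  have a2 : HasDerivAt (fun w : ℂ => 1 - conj a * w) (-(conj a)) z := by
    have := ((hasDerivAt_id z).const_mul (conj a)).const_sub 1
    simpa using this
  have a3 := (a1.div a2 h1).const_mul (Complex.exp (θ * Complex.I))
  have e : (1 - conj a * a) / (1 - conj a * z) ^ 2 =
      (1 * (1 - conj a * z) - (z - a) * -(conj a)) / (1 - conj a * z) ^ 2 := by
    congr 1
    ring
  rw [e]
  exact a3

lemma det_aut {θ : ℝ} {a z : ℂ} :
    |(L (Complex.exp (θ * Complex.I) * ((1 - conj a * a) / (1 - conj a * z) ^ 2)) 0).det| =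
      (1 - ‖a‖ ^ 2) ^ 2 / (‖1 - conj a * z‖ ^ 2) ^ 2 := by
  rw [det_L, norm_mul, Complex.norm_exp_ofReal_mul_I, one_mul, norm_div, norm_pow, norm_zero]
  have : (1 - conj a * a : ℂ) = ((1 - ‖a‖ ^ 2 : ℝ) : ℂ) := by
    rw [← Complex.normSq_eq_conj_mul_self, Complex.normSq_eq_norm_sq]
    push_cast
    ring
  rw [this, Complex.norm_real, Real.norm_eq_abs, div_pow, sq_abs]
  rw [show (0 : ℝ) ^ 2 = 0 by norm_num, sub_zero, abs_of_nonneg (by positivity)]

lemma upper_one (θ : ℝ) {a c : ℂ} (ha : ‖a‖ < 1) (hc : ‖c‖ = 2 / 5) :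
    volume (automorphism θ a '' ball c (1 / 1000)) ≤
      ENNReal.ofReal (101 / 100 * ((1 - ‖a‖ ^ 2) ^ 2 / (‖1 - conj a * c‖ ^ 2) ^ 2)) * V := by
  have hsub : ball c (1 / 1000) ⊆ ball (0 : ℂ) 1 := by
    apply ball_subset_ball'
    rw [dist_zero_right, hc]
    norm_num
  have h1 := addHaar_image_le_lintegral_abs_det_fderiv (μ := (volume : Measure ℂ))
    (s := ball c (1 / 1000)) measurableSet_ball
    (fun x hx => (hasFDerivAt_of_deriv (hasDerivAt_aut θ ha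
      (by simpa using hsub hx : ‖x‖ < 1))).hasFDerivWithinAt)
  refine h1.trans ?_
  have hV : V = volume (ball c (1 / 1000)) := by
    unfold V
    rw [Measure.addHaar_ball_center _ c]
  rw [hV, ← setLIntegral_const]
  apply setLIntegral_mono' measurableSet_ball
  intro x hx
  apply ENNReal.ofReal_le_ofReal
  rw [det_aut]
  have hx' : ‖x - c‖ < 1 / 1000 := by rwa [mem_ball, dist_eq_norm] at hx
  have hD0 : 3 / 5 ≤ ‖1 - conj a * c‖ := by
    have h2 := norm_sub_norm_le (1 : ℂ) (conj a * c)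
    rw [norm_mul, Complex.norm_conj, hc, norm_one] at h2
    linarith
  have hD : 599 / 600 * ‖1 - conj a * c‖ ≤ ‖1 - conj a * x‖ := by
    have h2 := norm_sub_norm_le (1 - conj a * c) (conj a * (x - c))
    have e : 1 - conj a * c - conj a * (x - c) = 1 - conj a * x := by ring
    rw [e, norm_mul, Complex.norm_conj] at h2
    have : ‖a‖ * ‖x - c‖ ≤ 1 * (1 / 1000) :=
      mul_le_mul ha.le hx'.le (norm_nonneg _) zero_le_one
    linarith
  have hA : 0 ≤ (1 - ‖a‖ ^ 2) ^ 2 := by positivity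
  have hD1 : 0 < ‖1 - conj a * c‖ := by linarith
  have hD2 : (599 / 600) ^ 4 * (‖1 - conj a * c‖ ^ 2) ^ 2 ≤ (‖1 - conj a * x‖ ^ 2) ^ 2 := by
    calc (599 / 600) ^ 4 * (‖1 - conj a * c‖ ^ 2) ^ 2 = (599 / 600 * ‖1 - conj a * c‖) ^ 4 := by ring
      _ ≤ (‖1 - conj a * x‖) ^ 4 := by gcongr
      _ = (‖1 - conj a * x‖ ^ 2) ^ 2 := by ring
  calc (1 - ‖a‖ ^ 2) ^ 2 / (‖1 - conj a * x‖ ^ 2) ^ 2
      ≤ (1 - ‖a‖ ^ 2) ^ 2 / ((599 / 600) ^ 4 * (‖1 - conj a * c‖ ^ 2) ^ 2) := by gcongr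
    _ = (600 / 599) ^ 4 * ((1 - ‖a‖ ^ 2) ^ 2 / (‖1 - conj a * c‖ ^ 2) ^ 2) := by
        field_simp
    _ ≤ 101 / 100 * ((1 - ‖a‖ ^ 2) ^ 2 / (‖1 - conj a * c‖ ^ 2) ^ 2) := by
        apply mul_le_mul_of_nonneg_right (by norm_num) (by positivity)

lemma sum_bound {a : ℂ} (ha : ‖a‖ < 1) :
    (1 - ‖a‖ ^ 2) ^ 2 / (‖1 - conj a * (2 / 5)‖ ^ 2) ^ 2 +
      (1 - ‖a‖ ^ 2) ^ 2 / (‖1 - conj a * (-(2 / 5))‖ ^ 2) ^ 2 ≤ 2 := by
  set x := a.re
  set y := a.im
  have hn : ‖a‖ ^ 2 = x ^ 2 + y ^ 2 := by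
    rw [← Complex.normSq_eq_norm_sq, Complex.normSq_apply]; ring
  have hX : ‖1 - conj a * (2 / 5)‖ ^ 2 = (1 - 2 / 5 * x) ^ 2 + (2 / 5 * y) ^ 2 := by
    rw [← Complex.normSq_eq_norm_sq, Complex.normSq_apply]
    have : (2 / 5 : ℂ) = ((2 / 5 : ℝ) : ℂ) := by push_cast; ring
    rw [this]
    simp only [Complex.sub_re, Complex.sub_im, Complex.one_re, Complex.one_im, Complex.mul_re,
      Complex.mul_im, Complex.conj_re, Complex.conj_im, Complex.ofReal_re, Complex.ofReal_im]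
    ring
  have hY : ‖1 - conj a * (-(2 / 5))‖ ^ 2 = (1 + 2 / 5 * x) ^ 2 + (2 / 5 * y) ^ 2 := by
    rw [← Complex.normSq_eq_norm_sq, Complex.normSq_apply]
    have : (-(2 / 5) : ℂ) = ((-(2 / 5) : ℝ) : ℂ) := by push_cast; ring
    rw [this]
    simp only [Complex.sub_re, Complex.sub_im, Complex.one_re, Complex.one_im, Complex.mul_re,
      Complex.mul_im, Complex.conj_re, Complex.conj_im, Complex.ofReal_re, Complex.ofReal_im]
    ring
  rw [hn, hX, hY]
  set t : ℝ := x ^ 2 + y ^ 2 with ht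
  have ht0 : 0 ≤ t := by positivity
  have ht1 : t < 1 := by rw [← hn]; nlinarith [norm_nonneg a]
  set X : ℝ := (1 - 2 / 5 * x) ^ 2 + (2 / 5 * y) ^ 2 with hXd
  set Y : ℝ := (1 + 2 / 5 * x) ^ 2 + (2 / 5 * y) ^ 2 with hYd
  have hXp : 0 < X := by
    have : -1 < x ∧ x < 1 := by constructor <;> nlinarith [sq_nonneg y]
    nlinarith [sq_nonneg (2 / 5 * y), sq_nonneg (1 - 2 / 5 * x)]
  have hYp : 0 < Y := by
    have : -1 < x ∧ x < 1 := by constructor <;> nlinarith [sq_nonneg y]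
    nlinarith [sq_nonneg (2 / 5 * y), sq_nonneg (1 + 2 / 5 * x)]
  have hsum : X + Y = 2 * (1 + 4 / 25 * t) := by rw [hXd, hYd, ht]; ring
  have hprod : (1 - 4 / 25 * t) ^ 2 ≤ X * Y := by
    have : X * Y - (1 - 4 / 25 * t) ^ 2 = (4 / 5 * y) ^ 2 := by rw [hXd, hYd, ht]; ring
    nlinarith [sq_nonneg (4 / 5 * y)]
  have hq0 : 0 < (1 - 4 / 25 * t) := by linarith
  have hgoal : (1 - t) ^ 2 * (X ^ 2 + Y ^ 2) ≤ 2 * (X * Y) ^ 2 := by
    have e : X ^ 2 + Y ^ 2 = 4 * (1 + 4 / 25 * t) ^ 2 - 2 * (X * Y) := by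
      have : X ^ 2 + Y ^ 2 = (X + Y) ^ 2 - 2 * (X * Y) := by ring
      rw [this, hsum]; ring
    rw [e]
    have k1 : (1 - t) ^ 2 * (4 * (1 + 4 / 25 * t) ^ 2 - 2 * (X * Y)) ≤
        (1 - t) ^ 2 * (4 * (1 + 4 / 25 * t) ^ 2 - 2 * (1 - 4 / 25 * t) ^ 2) := by
      apply mul_le_mul_of_nonneg_left _ (sq_nonneg _)
      linarith
    have k2 : (1 - t) ^ 2 * (4 * (1 + 4 / 25 * t) ^ 2 - 2 * (1 - 4 / 25 * t) ^ 2) ≤ 2 * (1 - t) := by
      have e2 : 2 * (1 - t) - (1 - t) ^ 2 * (4 * (1 + 4 / 25 * t) ^ 2 - 2 * (1 - 4 / 25 * t) ^ 2) =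
          2 * (1 - t) * (t * (1 / 25 + 584 / 625 * t + 16 / 625 * t ^ 2)) := by ring
      have : 0 ≤ 2 * (1 - t) * (t * (1 / 25 + 584 / 625 * t + 16 / 625 * t ^ 2)) := by
        have : 0 < 1 - t := by linarith
        positivity
      linarith
    have k3 : 1 - t ≤ ((1 - 4 / 25 * t) ^ 2) ^ 2 := by
      have : 1 - 8 / 25 * t ≤ (1 - 4 / 25 * t) ^ 2 := by nlinarith [sq_nonneg t]
      have h8 : 0 ≤ 1 - 8 / 25 * t := by linarith
      have : (1 - 8 / 25 * t) ^ 2 ≤ ((1 - 4 / 25 * t) ^ 2) ^ 2 := by gcongr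
      nlinarith [sq_nonneg t]
    have k4 : ((1 - 4 / 25 * t) ^ 2) ^ 2 ≤ (X * Y) ^ 2 := by gcongr
    linarith
  rw [div_add_div _ _ (by positivity) (by positivity), div_le_iff₀ (by positivity)]
  nlinarith

lemma upper (θ : ℝ) {a : ℂ} (ha : ‖a‖ < 1) :
    volume (automorphism θ a '' (E1 ∪ E2)) ≤ ENNReal.ofReal (202 / 100) * V := by
  rw [Set.image_union]
  refine (measure_union_le _ _).trans ?_
  have h1 := upper_one θ ha norm_two_fifths
  have h2 := upper_one θ (c := -(2 / 5)) ha (by rw [norm_neg, norm_two_fifths])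
  refine (add_le_add h1 h2).trans ?_
  rw [← add_mul, ← ENNReal.ofReal_add (by positivity) (by positivity)]
  gcongr
  have := sum_bound ha
  linarith

/-- There are a measurable set `E` in the disc, a sense-preserving univalent harmonic self-map `f`
of the disc and a constant `c` such that every conformal automorphism `φ` of the disc satisfies
`m(φ(E)) ≤ c`, while `m(f(E)) > c`. -/
theorem result : ∃ E : Set ℂ, MeasurableSet E ∧ E ⊆ ball (0 : ℂ) 1 ∧
    ∃ f : ℂ → ℂ, InH f ∧ ∃ c : ℝ≥0∞,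
      (∀ (θ : ℝ) (a : ℂ), ‖a‖ < 1 → volume (automorphism θ a '' E) ≤ c) ∧
      c < volume (f '' E) := by
  refine ⟨E1 ∪ E2, measurableSet_ball.union measurableSet_ball, Set.union_subset E1_sub E2_sub,
    F, F_inH, ENNReal.ofReal (202 / 100) * V, fun θ a ha => upper θ ha, ?_⟩
  refine lt_of_lt_of_le ?_ lower
  rw [ENNReal.mul_lt_mul_iff_left V_pos V_top]
  rw [ENNReal.ofReal_lt_ofReal_iff (by norm_num)]
  norm_num

end Pool.Agent.Results.MP_6004b5_an.HarmonicBeatsMobius
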